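import Mathlib
import Pool.Agent.Lib_helper76.QGProof

set_option autoImplicit false

namespace Pool.Agent.Results.MP_28a92f_nt.ConnectedFixedPoint

open Pool.Agent.Lib_helper76

/-- The undirected graph underlying the functional graph of `x ↦ x ^ 2 + a` on `ZMod p`:
distinct `x`, `y` are adjacent when `y = x ^ 2 + a` or `x = y ^ 2 + a`. -/
def quadGraph (p : ℕ) (a : ZMod p) : SimpleGraph (ZMod p) :=
  SimpleGraph.fromRel (fun x y => y = x ^ 2 + a)

/-- For the prime `p = 1113643` and `a = 278411 = 1/4` the functional graph of `x ↦ x ^ 2 + a`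
on `ZMod p` is connected, and the only point on a cycle is a fixed point `c`. -/
theorem result :
    ∃ p : ℕ, p = 1113643 ∧ p.Prime ∧ 7 < p ∧ ∃ a : ZMod p, a = ((278411 : ℕ) : ZMod p) ∧
      (quadGraph p a).Connected ∧
      ∃ c : ZMod p, c ^ 2 + a = c ∧
        Function.periodicPts (fun x : ZMod p => x ^ 2 + a) = {c} := by
  refine ⟨1113643, rfl, by norm_num, by norm_num, ((278411 : ℕ) : ZMod 1113643), rfl, ?_,
    ((556822 : ℕ) : ZMod 1113643), QG.f_root, ?_⟩
  · have hadj : ∀ x : ZMod 1113643, (quadGraph 1113643 ((278411 : ℕ) : ZMod 1113643)).Reachable x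
        (QGGen.f 1113643 278411 x) := by
      intro x
      by_cases hx : x = QGGen.f 1113643 278411 x
      · rw [← hx]
      · apply SimpleGraph.Adj.reachable
        rw [quadGraph, SimpleGraph.fromRel_adj]
        exact ⟨hx, Or.inl rfl⟩
    have hit : ∀ (k : ℕ) (x : ZMod 1113643),
        (quadGraph 1113643 ((278411 : ℕ) : ZMod 1113643)).Reachable x
          ((QGGen.f 1113643 278411)^[k] x) := by
      intro k
      induction k with
      | zero => intro x; exact SimpleGraph.Reachable.refl x
      | succ k ih =>
        intro x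
        rw [Function.iterate_succ_apply]
        exact (hadj x).trans (ih _)
    have : Nonempty (ZMod 1113643) := ⟨0⟩
    refine ⟨fun x y => ?_⟩
    obtain ⟨k, hk⟩ := QG.reaches x
    obtain ⟨l, hl⟩ := QG.reaches y
    have h1 := hit k x
    have h2 := hit l y
    rw [hk] at h1
    rw [hl] at h2
    exact h1.trans h2.symm
  · have hf : (fun x : ZMod 1113643 => x ^ 2 + ((278411 : ℕ) : ZMod 1113643)) =
      QGGen.f 1113643 278411 := rfl
    rw [hf]
    ext x
    simp only [Set.mem_singleton_iff]
    constructor
    · intro hx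
      obtain ⟨n, hn, hper⟩ := hx
      obtain ⟨k, hk⟩ := QG.reaches x
      have h1 : Function.IsPeriodicPt (QGGen.f 1113643 278411) (n * (k + 1)) x :=
        hper.mul_const (k + 1)
      have h2 : n * (k + 1) = (n * (k + 1) - k) + k := by
        have : k + 1 ≤ n * (k + 1) := Nat.le_mul_of_pos_left _ hn
        omega
      have h3 : (QGGen.f 1113643 278411)^[n * (k + 1)] x = x := h1
      rw [h2, Function.iterate_add_apply, hk, Function.iterate_fixed QG.f_root] at h3
      exact h3.symm
    · rintro rfl
      exact ⟨1, Nat.one_pos, QG.f_root⟩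

end Pool.Agent.Results.MP_28a92f_nt.ConnectedFixedPoint
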